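import Pool.Agent.W559.Wr.Stm

set_option autoImplicit false

open TensorProduct

universe u

namespace Pool.Agent.W22.WR

section

variable {k : Type u} [Field k]

noncomputable def mulL {J : Type} [Fintype J] {K : J → Type u} [∀ j, Field (K j)]
    [∀ j, Algebra k (K j)] {S : Type u} [CommRing S] [Algebra k S] (c : ∀ j, K j →ₗ[k] S) :
    (⨂[k] j, K j) →ₗ[k] S :=
  PiTensorProduct.lift ((MultilinearMap.mkPiAlgebra k J S).compLinearMap c)

lemma mulL_tprod {J : Type} [Fintype J] {K : J → Type u} [∀ j, Field (K j)]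
    [∀ j, Algebra k (K j)] {S : Type u} [CommRing S] [Algebra k S] (c : ∀ j, K j →ₗ[k] S)
    (x : ∀ j, K j) : mulL c (PiTensorProduct.tprod k x) = ∏ j, c j (x j) := by
  rw [mulL, PiTensorProduct.lift.tprod]
  rfl

lemma prod_single {J : Type} [Fintype J] [DecidableEq J] {K : J → Type u} [∀ j, Field (K j)]
    [∀ j, Algebra k (K j)] (x : ∀ j, K j) :
    ∏ j, PiTensorProduct.singleAlgHom (R := k) (A := K) j (x j) = PiTensorProduct.tprod k x := by
  simp only [PiTensorProduct.singleAlgHom_apply]
  rw [← PiTensorProduct.tprod_prod]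
  congr 1
  exact Finset.univ_prod_mulSingle x

/-- extension of a family by one -/
lemma exists_ext {I J : Type} {K : I → Type u} [∀ i, Field (K i)] {f : J → I}
    (hf : Function.Injective f) (x : ∀ j, K (f j)) :
    ∃ y : ∀ i, K i, (∀ j, y (f j) = x j) ∧ ∀ i, (¬ ∃ j, f j = i) → y i = 1 := by
  have h : ∀ i, ∃ y : K i, (∀ j, ∀ h : f j = i, y = h ▸ x j) ∧ ((¬ ∃ j, f j = i) → y = 1) := by
    intro i
    by_cases h : ∃ j, f j = i
    · obtain ⟨j, rfl⟩ := h
      refine ⟨x j, fun j' h' => ?_, fun h' => (h' ⟨j, rfl⟩).elim⟩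
      obtain rfl := hf h'
      rfl
    · exact ⟨1, fun j h' => (h ⟨j, h'⟩).elim, fun _ => rfl⟩
  choose y hy hy1 using h
  exact ⟨y, fun j => hy (f j) j rfl, fun i hi => hy1 i hi⟩

lemma res_inj {M : Type u} [Field M] [Algebra k M] {I J : Type} [Fintype I] [Fintype J]
    {K : I → Type u} [∀ i, Field (K i)] [∀ i, Algebra k (K i)] (e : ∀ i, K i →ₐ[k] M)
    (he : Function.Injective (mulL fun i => (e i).toLinearMap)) (f : J → I)
    (hf : Function.Injective f) (K' : J → Type u) [∀ j, Field (K' j)] [∀ j, Algebra k (K' j)]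
    (r : ∀ j, K' j →ₐ[k] K (f j)) :
    Function.Injective (mulL fun j => ((e (f j)).comp (r j)).toLinearMap) := by
  classical
  -- the embedding
  let φ : (⨂[k] j, K' j) →ₗ[k] (⨂[k] i, K i) :=
    mulL fun j => ((PiTensorProduct.singleAlgHom (R := k) (A := K) (f j)).comp (r j)).toLinearMap
  have hφ : ∀ (x : ∀ j, K' j) (y : ∀ i, K i), (∀ j, y (f j) = r j (x j)) →
      (∀ i, (¬ ∃ j, f j = i) → y i = 1) →
      φ (PiTensorProduct.tprod k x) = PiTensorProduct.tprod k y := by
    intro x y h1 h2
    rw [← prod_single y, mulL_tprod]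
    have h3 : ∏ j, (((PiTensorProduct.singleAlgHom (R := k) (A := K) (f j)).comp
        (r j)).toLinearMap) (x j) = ∏ j, PiTensorProduct.singleAlgHom (R := k) (A := K) (f j)
          (y (f j)) := by
      refine Finset.prod_congr rfl fun j _ => ?_
      rw [h1 j]
      rfl
    rw [h3, ← Finset.prod_image (s := Finset.univ) (g := f)
      (f := fun i => PiTensorProduct.singleAlgHom (R := k) (A := K) i (y i))
      (fun a _ b _ h => hf h)]
    refine Finset.prod_subset (Finset.subset_univ _) fun i _ hi => ?_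
    rw [h2 i, map_one]
    rintro ⟨j, rfl⟩
    exact hi (Finset.mem_image_of_mem f (Finset.mem_univ j))
  -- the retraction
  have hl : ∀ j, ∃ l : K (f j) →ₗ[k] K' j, ∀ x, l (r j x) = x := by
    intro j
    obtain ⟨l, hl⟩ := LinearMap.exists_leftInverse_of_injective (r j).toLinearMap
      (LinearMap.ker_eq_bot.mpr (r j).injective)
    exact ⟨l, fun x => LinearMap.congr_fun hl x⟩
  choose l hl using hl
  have hc : ∀ i, ∃ c : K i →ₗ[k] (⨂[k] j, K' j), (∀ j, ∀ h : f j = i, ∀ x : K (f j),
      c (h ▸ x) = PiTensorProduct.singleAlgHom (R := k) (A := K') j (l j x)) ∧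
      ((¬ ∃ j, f j = i) → c 1 = 1) := by
    intro i
    by_cases h : ∃ j, f j = i
    · obtain ⟨j, rfl⟩ := h
      refine ⟨(PiTensorProduct.singleAlgHom (R := k) (A := K') j).toLinearMap ∘ₗ (l j),
        fun j' h' x => ?_, fun h' => (h' ⟨j, rfl⟩).elim⟩
      obtain rfl := hf h'
      rfl
    · obtain ⟨g, hg⟩ := LinearMap.exists_leftInverse_of_injective (Algebra.linearMap k (K i))
        (LinearMap.ker_eq_bot.mpr (algebraMap k (K i)).injective)
      refine ⟨(Algebra.linearMap k (⨂[k] j, K' j)) ∘ₗ g, fun j h' => (h ⟨j, h'⟩).elim,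
        fun _ => ?_⟩
      have h2 : g 1 = 1 := by
        have := LinearMap.congr_fun hg 1
        simpa using this
      rw [LinearMap.comp_apply, h2]
      simp
  choose c hc hc1 using hc
  have hψ : ∀ t, mulL c (φ t) = t := by
    intro t
    have : (mulL c) ∘ₗ φ = LinearMap.id := by
      refine PiTensorProduct.ext (MultilinearMap.ext fun x => ?_)
      obtain ⟨y, hy, hy1⟩ := exists_ext hf (fun j => r j (x j))
      change mulL c (φ (PiTensorProduct.tprod k x)) = PiTensorProduct.tprod k x
      rw [hφ x y hy hy1, mulL_tprod, ← prod_single x]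
      have h3 : ∏ j, PiTensorProduct.singleAlgHom (R := k) (A := K') j (x j) =
          ∏ j, c (f j) (y (f j)) := by
        refine Finset.prod_congr rfl fun j _ => ?_
        rw [hy j]
        have := hc (f j) j rfl (r j (x j))
        rw [hl] at this
        exact this.symm
      rw [h3, ← Finset.prod_image (s := Finset.univ) (g := f)
        (f := fun i => c i (y i)) (fun a _ b _ h => hf h)]
      symm
      refine Finset.prod_subset (Finset.subset_univ _) fun i _ hi => ?_
      have h4 : ¬ ∃ j, f j = i := by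
        rintro ⟨j, rfl⟩
        exact hi (Finset.mem_image_of_mem f (Finset.mem_univ j))
      rw [hy1 i h4, hc1 i h4]
    exact LinearMap.congr_fun this t
  have hm : ∀ t, mulL (fun j => ((e (f j)).comp (r j)).toLinearMap) t =
      mulL (fun i => (e i).toLinearMap) (φ t) := by
    intro t
    have : mulL (fun j => ((e (f j)).comp (r j)).toLinearMap) =
        (mulL (fun i => (e i).toLinearMap)) ∘ₗ φ := by
      refine PiTensorProduct.ext (MultilinearMap.ext fun x => ?_)
      obtain ⟨y, hy, hy1⟩ := exists_ext hf (fun j => r j (x j))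
      change mulL _ (PiTensorProduct.tprod k x) = mulL _ (φ (PiTensorProduct.tprod k x))
      rw [hφ x y hy hy1, mulL_tprod, mulL_tprod]
      have h3 : ∏ j, (((e (f j)).comp (r j)).toLinearMap) (x j) =
          ∏ j, (e (f j)).toLinearMap (y (f j)) := by
        refine Finset.prod_congr rfl fun j _ => ?_
        rw [hy j]
        rfl
      rw [h3, ← Finset.prod_image (s := Finset.univ) (g := f)
        (f := fun i => (e i).toLinearMap (y i)) (fun a _ b _ h => hf h)]
      refine Finset.prod_subset (Finset.subset_univ _) fun i _ hi => ?_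
      have h4 : ¬ ∃ j, f j = i := by
        rintro ⟨j, rfl⟩
        exact hi (Finset.mem_image_of_mem f (Finset.mem_univ j))
      rw [hy1 i h4]
      exact map_one (e i)
    exact LinearMap.congr_fun this t
  intro a b hab
  rw [hm, hm] at hab
  have := he hab
  rw [← hψ a, ← hψ b, this]

end

theorem res : Pool.Agent.W559.Wr.ResStm.{u} := by
  intro k M _ _ _ I J _ _ K _ _ e he f hf K' _ _ r
  exact res_inj e he f hf K' r

end Pool.Agent.W22.WR
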